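import Mathlib

/-!
# Homeomorphisms conjugate to their inverse have zero stable flow length

Let `X` be a topological space (for instance a closed orientable surface `Σ_g`).  A flow is a
continuous one-parameter group of homeomorphisms of `X`, that is a term of Mathlib's
`Flow ℝ X`.  We look at the set `timeOneMaps X` of the time-one maps of all flows of `X`, and at
a group `G` of homeomorphisms of `X` which is generated by this set (for instance
`G = Homeo_0(Σ_g)`).  The flow length of `h` is the word length of `h` with respect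
to the time-one maps.  We prove that, if `f` in `G` is conjugate in `G` to `f⁻¹`, then the
stable flow length of `f` is zero.
-/

open Filter Topology

namespace Pool.Agent.Results.MP_e54d61_gt.ReversibleZeroStableFlow

/-- The time-one maps `φ¹` of all flows `φ` (continuous one-parameter groups of homeomorphisms)
of the topological space `X`. -/
def timeOneMaps (X : Type*) [TopologicalSpace X] : Set (X ≃ₜ X) :=
  {h | ∃ φ : Flow ℝ X, h = φ.toHomeomorph 1}

/-- The word length of `h` with respect to the subset `S`: the least number of elements of `S`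
whose product is `h`. -/
noncomputable def wordLength {G : Type*} [Group G] (S : Set G) (h : G) : ℕ :=
  sInf {k : ℕ | ∃ l : List G, l.length = k ∧ (∀ s ∈ l, s ∈ S) ∧ l.prod = h}

/-- The flow length: word length with respect to the time-one maps of flows. -/
noncomputable def flowLength {X : Type*} [TopologicalSpace X] (h : X ≃ₜ X) : ℕ :=
  wordLength (timeOneMaps X) h

variable {X : Type*} [TopologicalSpace X]

/-- The conjugate of a flow by a homeomorphism. -/
def conjFlow (g : X ≃ₜ X) (φ : Flow ℝ X) : Flow ℝ X where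
  toFun t x := g (φ t (g.symm x))
  cont' := by
    have h1 : Continuous fun p : ℝ × X => φ p.1 (g.symm p.2) :=
      φ.continuous continuous_fst (g.symm.continuous.comp continuous_snd)
    exact g.continuous.comp h1
  map_add' t₁ t₂ x := by simp [φ.map_add]
  map_zero' x := by simp [φ.map_zero]

/-- The time reversal of a flow. -/
def revFlow (φ : Flow ℝ X) : Flow ℝ X where
  toFun t x := φ (-t) x
  cont' := φ.continuous (continuous_neg.comp continuous_fst) continuous_snd
  map_add' t₁ t₂ x := by rw [neg_add, φ.map_add]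
  map_zero' x := by simp [φ.map_zero]

lemma conj_mem {s : X ≃ₜ X} (hs : s ∈ timeOneMaps X) (g : X ≃ₜ X) :
    g * s * g⁻¹ ∈ timeOneMaps X := by
  obtain ⟨φ, rfl⟩ := hs
  refine ⟨conjFlow g φ, ?_⟩
  ext x
  rfl

lemma inv_mem {s : X ≃ₜ X} (hs : s ∈ timeOneMaps X) : s⁻¹ ∈ timeOneMaps X := by
  obtain ⟨φ, rfl⟩ := hs
  refine ⟨revFlow φ, ?_⟩
  ext x
  rfl

section Abstract

variable {G : Type*} [Group G] {S : Set G}

lemma wordLength_le {l : List G} (hl : ∀ s ∈ l, s ∈ S) : wordLength S l.prod ≤ l.length :=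
  Nat.sInf_le ⟨l, rfl, hl, rfl⟩

lemma exists_list_of_mem (hinv : ∀ s ∈ S, s⁻¹ ∈ S) {h : G} (hh : h ∈ Subgroup.closure S) :
    ∃ l : List G, (∀ s ∈ l, s ∈ S) ∧ l.prod = h := by
  have hcl : h ∈ Submonoid.closure S := by
    have h1 : h ∈ (Subgroup.closure S).toSubmonoid := hh
    rw [Subgroup.closure_toSubmonoid] at h1
    have h2 : S ∪ S⁻¹ = S := by
      refine Set.union_eq_self_of_subset_right ?_
      intro s hs
      have := hinv _ (Set.mem_inv.1 hs)
      rwa [inv_inv] at this
    rwa [h2] at h1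
  obtain ⟨l, hl, hp⟩ := Submonoid.exists_list_of_mem_closure hcl
  exact ⟨l, hl, hp⟩

lemma exists_list_length (hinv : ∀ s ∈ S, s⁻¹ ∈ S) {h : G} (hh : h ∈ Subgroup.closure S) :
    ∃ l : List G, l.length = wordLength S h ∧ (∀ s ∈ l, s ∈ S) ∧ l.prod = h := by
  have hne : {k : ℕ | ∃ l : List G, l.length = k ∧ (∀ s ∈ l, s ∈ S) ∧ l.prod = h}.Nonempty := by
    obtain ⟨l, hl, hp⟩ := exists_list_of_mem hinv hh
    exact ⟨l.length, l, rfl, hl, hp⟩
  exact Nat.sInf_mem hne

lemma conj_prod (g : G) (l : List G) :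
    (l.map (fun s => g * s * g⁻¹)).prod = g * l.prod * g⁻¹ := by
  induction l with
  | nil => simp
  | cons a l ih =>
    rw [List.map_cons, List.prod_cons, ih, List.prod_cons]
    group

/-- The commutator identity behind the theorem. -/
lemma pow_two_mul_eq {f h : G} (hc : h * f * h⁻¹ = f⁻¹) (n : ℕ) :
    f ^ (2 * n) = (f ^ n * h * (f ^ n)⁻¹) * h⁻¹ := by
  have h1 : h * (f ^ n)⁻¹ * h⁻¹ = f ^ n := by
    have h2 : h * f ^ n * h⁻¹ = (f ^ n)⁻¹ := by
      rw [← conj_pow, hc, inv_pow]
    have h3 : h * (f ^ n)⁻¹ * h⁻¹ = (h * f ^ n * h⁻¹)⁻¹ := by group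
    rw [h3, h2, inv_inv]
  have h4 : (f ^ n * h * (f ^ n)⁻¹) * h⁻¹ = f ^ n * (h * (f ^ n)⁻¹ * h⁻¹) := by
    simp only [mul_assoc]
  rw [h4, h1, two_mul, pow_add]

lemma wordLength_pow_le (hinv : ∀ s ∈ S, s⁻¹ ∈ S) (hconj : ∀ s ∈ S, ∀ g : G, g * s * g⁻¹ ∈ S)
    {f h : G} (hf : f ∈ Subgroup.closure S) (hh : h ∈ Subgroup.closure S)
    (hc : h * f * h⁻¹ = f⁻¹) (n : ℕ) :
    wordLength S (f ^ n) ≤ 2 * wordLength S h + wordLength S f := by
  obtain ⟨lh, hlen, hmem, hprod⟩ := exists_list_length hinv hh
  obtain ⟨lf, hlenf, hmemf, hprodf⟩ := exists_list_length hinv hf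
  -- the list for `h⁻¹`
  have hinvprod : ((lh.map (fun s => s⁻¹)).reverse).prod = h⁻¹ := by
    rw [← hprod, List.prod_inv_reverse]
  have hinvmem : ∀ s ∈ (lh.map (fun s => s⁻¹)).reverse, s ∈ S := by
    intro s hs
    rw [List.mem_reverse, List.mem_map] at hs
    obtain ⟨a, ha, rfl⟩ := hs
    exact hinv a (hmem a ha)
  -- even powers
  have heven : ∀ m : ℕ, ∃ l : List G, l.length = 2 * wordLength S h ∧ (∀ s ∈ l, s ∈ S) ∧
      l.prod = f ^ (2 * m) := by
    intro m
    refine ⟨lh.map (fun s => f ^ m * s * (f ^ m)⁻¹) ++ (lh.map (fun s => s⁻¹)).reverse,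
      ?_, ?_, ?_⟩
    · simp [hlen, two_mul]
    · intro s hs
      rw [List.mem_append] at hs
      rcases hs with hs | hs
      · rw [List.mem_map] at hs
        obtain ⟨a, ha, rfl⟩ := hs
        exact hconj a (hmem a ha) _
      · exact hinvmem s hs
    · rw [List.prod_append, conj_prod, hprod, hinvprod, pow_two_mul_eq hc m]
  rcases Nat.even_or_odd' n with ⟨m, hm | hm⟩
  · obtain ⟨l, hl, hlm, hlp⟩ := heven m
    rw [hm, ← hlp]
    calc wordLength S l.prod ≤ l.length := wordLength_le hlm
      _ ≤ 2 * wordLength S h + wordLength S f := by omega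
  · obtain ⟨l, hl, hlm, hlp⟩ := heven m
    have hp : (l ++ lf).prod = f ^ n := by
      rw [List.prod_append, hlp, hprodf, hm, pow_succ]
    have hmm : ∀ s ∈ l ++ lf, s ∈ S := by
      intro s hs
      rcases List.mem_append.1 hs with hs | hs
      · exact hlm s hs
      · exact hmemf s hs
    rw [← hp]
    calc wordLength S (l ++ lf).prod ≤ (l ++ lf).length := wordLength_le hmm
      _ = 2 * wordLength S h + wordLength S f := by simp [hl, hlenf]

end Abstract

/-- **Negative answer to the question whether some element conjugate to its inverse has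
positive stable flow length.**  Let `G` be a group of homeomorphisms of a topological space
`X` (for example `Homeo_0(Σ_g)`) generated by the time-one maps of flows, and let `f ∈ G` be
conjugate in `G` to its inverse.  Then the stable flow length `lim fl(fⁿ)/n` of `f` is `0`. -/
theorem result (G : Subgroup (X ≃ₜ X)) (hG : Subgroup.closure (timeOneMaps X) = G)
    (f : X ≃ₜ X) (hf : f ∈ G) (hconj : ∃ h ∈ G, h * f * h⁻¹ = f⁻¹) :
    Tendsto (fun n : ℕ => (flowLength (f ^ n) : ℝ) / n) atTop (𝓝 0) := by
  obtain ⟨h, hh, hc⟩ := hconj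
  rw [← hG] at hf hh
  have hb : ∀ n : ℕ, (flowLength (f ^ n) : ℝ) ≤ (2 * flowLength h + flowLength f : ℕ) := by
    intro n
    exact_mod_cast wordLength_pow_le (fun s hs => inv_mem hs)
      (fun s hs g => conj_mem hs g) hf hh hc n
  refine squeeze_zero (fun n => by positivity)
    (g := fun n : ℕ => ((2 * flowLength h + flowLength f : ℕ) : ℝ) / n) ?_ ?_
  · intro n
    exact div_le_div_of_nonneg_right (hb n) (by positivity)
  · exact tendsto_const_div_atTop_nhds_zero_nat _

end Pool.Agent.Results.MP_e54d61_gt.ReversibleZeroStableFlow
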