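import Mathlib
import Pool.Agent.Lib.MP_e54d61_gt.TC.FinGap
import Pool.Agent.Lib.MP_e54d61_gt.TC.All

/-!
# The torus: a gap for the stable commutator length, and Q1 for genus one

`T = ℝ²/ℤ²` is the torus (the product of two copies of `AddCircle (1 : ℝ)`), that is `Σ_1`.  `G` is the group of
homeomorphisms of `T` generated by the time-one maps of the flows (continuous one-parameter groups of
homeomorphisms) of `T`; it is `Homeo_0(T)`.  For `f ∈ G`, `cl f` is the commutator length of `f` in `G`, `fl f` is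
the word length of `f` with respect to the time-one maps of flows, and `scl f` is the limit (here: the lower limit)
of `cl (f ^ n) / n`.  We prove: there are `K` and `ε > 0` such that `scl f < ε` implies `fl f ≤ K`; in particular
`scl f = 0` implies `fl (f ^ n) ≤ K` for all `n`, and the stable flow length of `f` is zero.
-/

open Filter Topology ENNReal

namespace Pool.Agent.Results.MP_e54d61_gt.TorusGap

/-- the torus `ℝ²/ℤ²` -/
abbrev Torus : Type := AddCircle (1 : ℝ) × AddCircle (1 : ℝ)

/-- The time-one maps `φ¹` of all flows `φ` (continuous one-parameter groups of homeomorphisms)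
of the topological space `X`. -/
def timeOneMaps (X : Type) [TopologicalSpace X] : Set (X ≃ₜ X) :=
  {h | ∃ φ : Flow ℝ X, h = φ.toHomeomorph 1}

/-- The word length of `h` with respect to the subset `S`, as an element of `ℕ∞`: the least number
of elements of `S` whose product is `h`, and `⊤` if `h` is not a product of elements of `S`. -/
noncomputable def wordLength {G : Type} [Group G] (S : Set G) (h : G) : ℕ∞ :=
  ⨅ (l : List G) (_ : (∀ s ∈ l, s ∈ S) ∧ l.prod = h), (l.length : ℕ∞)

/-- The commutator length in the group `G`. -/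
noncomputable def commLength {G : Type} [Group G] (h : G) : ℕ∞ :=
  wordLength {s | ∃ a b : G, s = a * b * a⁻¹ * b⁻¹} h

/-- The flow length: word length with respect to the time-one maps of flows. -/
noncomputable def flowLength {X : Type} [TopologicalSpace X] (h : X ≃ₜ X) : ℕ∞ :=
  wordLength (timeOneMaps X) h

/-- The stable commutator length of `f`: the lower limit, as `n` tends to infinity, of the quotients
`cl (f ^ n) / n` (they converge, so this is their limit). -/
noncomputable def scl {G : Type} [Group G] (f : G) : ℝ≥0∞ :=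
  liminf (fun n : ℕ => ((commLength (f ^ n) : ℕ∞) : ℝ≥0∞) / n) atTop

/-- `L (f ^ n) / n` tends to zero: the stable length of `f` with respect to `L` is zero. -/
def StableZero {G : Type} [Group G] (L : G → ℕ∞) (f : G) : Prop :=
  Tendsto (fun n : ℕ => ((L (f ^ n) : ℕ∞) : ℝ≥0∞) / n) atTop (𝓝 0)

/-- A length `≤ k` is realised by a list. -/
theorem exists_list {G : Type} [Group G] {S : Set G} {h : G} (hh : wordLength S h ≠ ⊤) :
    ∃ l : List G, (∀ s ∈ l, s ∈ S) ∧ l.prod = h ∧ (l.length : ℕ∞) = wordLength S h := by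
  by_cases hne : ∃ l : List G, (∀ s ∈ l, s ∈ S) ∧ l.prod = h
  · let K : Set ℕ := {k | ∃ l : List G, ((∀ s ∈ l, s ∈ S) ∧ l.prod = h) ∧ l.length = k}
    have hK : K.Nonempty := by
      obtain ⟨l, hl⟩ := hne
      exact ⟨l.length, l, hl, rfl⟩
    obtain ⟨l, hl, hlk⟩ := Nat.sInf_mem hK
    refine ⟨l, hl.1, hl.2, le_antisymm ?_ ?_⟩
    · refine le_iInf₂ fun l' hl' => ?_
      have : sInf K ≤ l'.length := Nat.sInf_le ⟨l', hl', rfl⟩
      rw [hlk]
      exact_mod_cast this
    · exact iInf₂_le l hl
  · exfalso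
    apply hh
    rw [wordLength]
    simp only [iInf_eq_top]
    intro l hl
    exact (hne ⟨l, hl⟩).elim

/-- small stable commutator length gives powers with small commutator length -/
theorem exists_pow {G : Type} [Group G] {f : G} {ε : ℝ} (hf : scl f < ENNReal.ofReal ε) :
    ∃ (n : ℕ) (l : List G), 1 ≤ n ∧ (l.length : ℝ) < ε * n ∧
      (∀ s ∈ l, ∃ a b : G, s = a * b * a⁻¹ * b⁻¹) ∧ l.prod = f ^ n := by
  have h1 : ∃ᶠ n : ℕ in atTop,
      ((commLength (f ^ n) : ℕ∞) : ℝ≥0∞) / n < ENNReal.ofReal ε :=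
    frequently_lt_of_liminf_lt (by isBoundedDefault) hf
  obtain ⟨n, hn, hn1⟩ := (h1.and_eventually (eventually_ge_atTop 1)).exists
  have hn0 : (n : ℝ≥0∞) ≠ 0 := by
    have : n ≠ 0 := by omega
    exact_mod_cast this
  have h2 : ((commLength (f ^ n) : ℕ∞) : ℝ≥0∞) < ENNReal.ofReal ε * n := by
    rwa [ENNReal.div_lt_iff (Or.inl hn0) (Or.inl (ENNReal.natCast_ne_top n))] at hn
  have h3 : commLength (f ^ n) ≠ ⊤ := by
    intro h
    rw [h] at h2
    simp at h2
  obtain ⟨l, hl1, hl2, hl3⟩ := exists_list h3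
  refine ⟨n, l, hn1, ?_, hl1, hl2⟩
  have h4 : ((l.length : ℕ) : ℝ≥0∞) < ENNReal.ofReal ε * n := by
    refine lt_of_le_of_lt ?_ h2
    change _ ≤ ((wordLength _ (f ^ n) : ℕ∞) : ℝ≥0∞)
    rw [← hl3]
    simp
  have hε : 0 < ε := by
    by_contra hneg
    rw [ENNReal.ofReal_of_nonpos (not_lt.1 hneg)] at hf
    exact _root_.not_lt_zero hf
  have h5 : ENNReal.ofReal (l.length : ℝ) < ENNReal.ofReal (ε * n) := by
    rw [ENNReal.ofReal_mul hε.le, ENNReal.ofReal_natCast, ENNReal.ofReal_natCast]
    exact h4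
  exact (ENNReal.ofReal_lt_ofReal_iff_of_nonneg (by positivity)).1 h5

/-- `scl (f ^ m)` vanishes if `scl f` does -/
theorem pow_small {G : Type} [Group G] {f : G} (hf : scl f = 0) (m : ℕ) {ε : ℝ} (hε : 0 < ε) :
    ∃ (n : ℕ) (l : List G), 1 ≤ n ∧ (l.length : ℝ) < ε * n ∧
      (∀ s ∈ l, ∃ a b : G, s = a * b * a⁻¹ * b⁻¹) ∧ l.prod = (f ^ m) ^ n := by
  have hm : 0 < ε / (m + 1) := by positivity
  obtain ⟨n, l, hn, hl, hc, hp⟩ := exists_pow (f := f) (ε := ε / (m + 1))
    (by rw [hf]; exact ENNReal.ofReal_pos.2 hm)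
  refine ⟨n, (List.replicate m l).flatten, hn, ?_, ?_, ?_⟩
  · have h1 : ((List.replicate m l).flatten.length : ℝ) = m * l.length := by
      simp
    rw [h1]
    have hn' : (0 : ℝ) < n := by exact_mod_cast hn
    have hm0 : (0 : ℝ) < (m : ℝ) + 1 := by positivity
    have h2 : (m : ℝ) * l.length ≤ m * (ε / (m + 1) * n) :=
      mul_le_mul_of_nonneg_left hl.le (by positivity)
    have h3 : (m : ℝ) * (ε / (m + 1) * n) < ε * n := by
      have : (m : ℝ) * (ε / (m + 1) * n) = (m / (m + 1)) * (ε * n) := by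
        field_simp
      rw [this]
      have h4 : (m : ℝ) / (m + 1) < 1 := by
        rw [div_lt_one hm0]
        linarith
      have h5 : 0 < ε * n := by positivity
      nlinarith
    linarith
  · intro s hs
    rw [List.mem_flatten] at hs
    obtain ⟨l', hl', hs'⟩ := hs
    rw [List.mem_replicate] at hl'
    rw [hl'.2] at hs'
    exact hc s hs'
  · rw [List.prod_flatten, List.map_replicate, List.prod_replicate, hp, ← pow_mul, ← pow_mul,
      mul_comm]

open Pool.Agent.MPe54d61 in
/-- **A gap for the stable commutator length on the torus, and the case `g = 1` of the question.**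
Let `G` be the group of homeomorphisms of the torus generated by the time-one maps of flows
(`G = Homeo_0(T²)`).  There are `K` and `ε > 0` such that every `f ∈ G` with `scl f < ε` is a
product of at most `K` time-one maps of flows.  If `scl f = 0`, then all powers `f ^ n` are products of
at most `K` time-one maps of flows and the stable flow length of `f` is zero. -/
theorem result
    (G : Subgroup (Torus ≃ₜ Torus)) (hG : Subgroup.closure (timeOneMaps Torus) = G) :
    ∃ (K : ℕ) (ε : ℝ), 0 < ε ∧ ∀ f : G,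
      (scl f < ENNReal.ofReal ε → flowLength (f : Torus ≃ₜ Torus) ≤ K) ∧
      (scl f = 0 → (∀ n : ℕ, flowLength ((f ^ n : G) : Torus ≃ₜ Torus) ≤ K) ∧
        StableZero (fun h : G => flowLength (h : Torus ≃ₜ Torus)) f) := by
  subst hG
  obtain ⟨K, E, hK⟩ := TC.tFinGap TC.aNu TC.aAdj5 TC.aGGE TC.aNuLen
  have hfl : ∀ f : TC.GT, flowLength ((f : Subgroup.closure (timeOneMaps Torus)) : Torus ≃ₜ Torus) ≤
      (TC.nuT f : ℕ∞) := by
    intro f
    obtain ⟨l, hl1, hl2, hl3⟩ := Nat.sInf_mem (s := {n | TC.FL n (f : TC.T ≃ₜ TC.T)})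
      (TC.mem_fl f.2)
    have : flowLength ((f : Subgroup.closure (timeOneMaps Torus)) : Torus ≃ₜ Torus) ≤
        (l.length : ℕ∞) := iInf₂_le l ⟨hl2, hl3⟩
    rw [hl1] at this
    exact this
  have key : ∀ f : TC.GT, (∃ (n : ℕ) (l : List TC.GT), 1 ≤ n ∧
      (l.length : ℝ) < (1 / ((E : ℝ) + 1)) * n ∧
      (∀ s ∈ l, ∃ a b : TC.GT, s = a * b * a⁻¹ * b⁻¹) ∧ l.prod = f ^ n) →
      flowLength ((f : Subgroup.closure (timeOneMaps Torus)) : Torus ≃ₜ Torus) ≤ K := by
    rintro f ⟨n, l, hn, hl, hc, hp⟩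
    refine (hfl f).trans ?_
    have h1 : E * l.length < n := by
      have h2 : ((E : ℝ) + 1) * l.length < n := by
        have h3 : (0 : ℝ) < (E : ℝ) + 1 := by positivity
        rw [one_div, inv_mul_eq_div, lt_div_iff₀ h3] at hl
        linarith
      have h4 : (E : ℝ) * l.length < n := by
        have : (0 : ℝ) ≤ l.length := by positivity
        linarith
      exact_mod_cast h4
    exact_mod_cast hK f n l.length ⟨l, rfl, hc, hp⟩ h1
  refine ⟨K, 1 / ((E : ℝ) + 1), by positivity, fun f => ⟨fun hf => ?_, fun hf => ?_⟩⟩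
  · exact key f (exists_pow hf)
  · have hall : ∀ n : ℕ, flowLength (((f ^ n : _) : (Subgroup.closure (timeOneMaps Torus) :
        Subgroup (Torus ≃ₜ Torus))) : Torus ≃ₜ Torus) ≤ K := fun n =>
      key (f ^ n) (pow_small hf n (by positivity))
    refine ⟨hall, ?_⟩
    have hlim : Tendsto (fun n : ℕ => (K : ℝ≥0∞) / n) atTop (𝓝 0) := by
      have := ENNReal.Tendsto.const_div (a := (K : ℝ≥0∞)) ENNReal.tendsto_nat_nhds_top
        (Or.inr (ENNReal.natCast_ne_top K))
      rwa [ENNReal.div_top] at this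
    refine tendsto_of_tendsto_of_tendsto_of_le_of_le' tendsto_const_nhds hlim
      (Eventually.of_forall fun n => zero_le) (Eventually.of_forall fun n => ?_)
    refine ENNReal.div_le_div_right ?_ _
    have := hall n
    calc _ ≤ (((K : ℕ) : ℕ∞) : ℝ≥0∞) := by exact_mod_cast this
      _ = (K : ℝ≥0∞) := by simp

end Pool.Agent.Results.MP_e54d61_gt.TorusGap
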